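import Pool.Agent.H274R5.FFCount

namespace Pool.Agent.Results.MP_f5847d_nt.SparseExceptions

open Pool.Agent.H274R5.FF

/-- For every finite set `S` of primes and every real `c < 1`, the number of `n ≤ X` for which
some product `∏ p ^ k_p` of powers of the primes of `S` lies within `exp (c n log n)` of `n!` is
`O(log X / log log X)`. -/
theorem result (S : Finset ℕ) (hS : ∀ p ∈ S, Nat.Prime p) (c : ℝ) (hc : c < 1) :
    ∃ A : ℝ, 0 < A ∧ ∀ X : ℕ, 3 ≤ X →
      (({n : ℕ | n ≤ X ∧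
        ∃ k : ℕ → ℕ, |(Nat.factorial n : ℝ) - ∏ p ∈ S, (p : ℝ) ^ (k p)| ≤
          Real.exp (c * (n : ℝ) * Real.log (n : ℝ))}.ncard : ℕ) : ℝ) ≤
        A * (Real.log X / Real.log (Real.log X)) := by
  classical
  obtain ⟨c', hc'⟩ : ∃ c', c' = max c 0 := ⟨_, rfl⟩
  have hc'1 : c' < 1 := by rw [hc']; exact max_lt hc one_pos
  have hc'0 : 0 ≤ c' := by rw [hc']; exact le_max_right _ _
  have hcc' : c ≤ c' := by rw [hc']; exact le_max_left _ _
  obtain ⟨N0, hN0⟩ := good_of_close S hS c' hc'1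
  obtain ⟨γ, hγ⟩ : ∃ γ, γ = (1 - c') / 2 := ⟨_, rfl⟩
  have hγ0 : 0 < γ := by rw [hγ]; linarith
  have hγ1 : γ ≤ 1 / 2 := by rw [hγ]; linarith
  rw [← hγ] at hN0
  have hgood : ∀ n : ℕ, N0 + 1 ≤ n → (∃ k : ℕ → ℕ,
      |(Nat.factorial n : ℝ) - ∏ p ∈ S, (p : ℝ) ^ (k p)| ≤
        Real.exp (c * (n : ℝ) * Real.log (n : ℝ))) → ∃ k, Good γ S n k := by
    intro n hn ⟨k, hk⟩
    refine ⟨k, hN0 n (by omega) k (hk.trans ?_)⟩
    apply Real.exp_le_exp.mpr
    have h1 : (0 : ℝ) ≤ (n : ℝ) * Real.log n :=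
      mul_nonneg (Nat.cast_nonneg _) (Real.log_natCast_nonneg n)
    nlinarith
  obtain ⟨C0, hC0, X0, hX0⟩ := count_le S hS γ hγ0 hγ1
  refine ⟨C0 + ((N0 : ℝ) + 1) + ((X0 : ℝ) + 1), by positivity, fun X hX => ?_⟩
  set T : Set ℕ := {n : ℕ | n ≤ X ∧
      ∃ k : ℕ → ℕ, |(Nat.factorial n : ℝ) - ∏ p ∈ S, (p : ℝ) ^ (k p)| ≤
        Real.exp (c * (n : ℝ) * Real.log (n : ℝ))} with hT
  have hfin : T.Finite := (Set.finite_Iic X).subset fun n hn => by
    rw [hT, Set.mem_setOf_eq] at hn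
    exact hn.1
  rw [Set.ncard_eq_toFinset_card T hfin]
  have hXr : (3 : ℝ) ≤ X := by exact_mod_cast hX
  have hlX : 1 < Real.log X := by
    rw [Real.lt_log_iff_exp_lt (by linarith)]
    have := Real.exp_one_lt_d9
    linarith
  have hllX : 0 < Real.log (Real.log X) := Real.log_pos hlX
  have hq : 1 ≤ Real.log X / Real.log (Real.log X) := by
    rw [le_div_iff₀ hllX]
    have := Real.log_le_sub_one_of_pos (show 0 < Real.log X by linarith)
    linarith
  have hX0r : (0 : ℝ) ≤ X0 := Nat.cast_nonneg _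
  have hN0r : (0 : ℝ) ≤ N0 := Nat.cast_nonneg _
  by_cases hXX : X0 ≤ X
  · have h1 : hfin.toFinset.card ≤ (Finset.range (N0 + 1)).card +
        (hfin.toFinset.filter fun n => N0 + 1 ≤ n).card := by
      rw [← Finset.card_filter_add_card_filter_not (s := hfin.toFinset)
        (fun n => N0 + 1 ≤ n), add_comm]
      apply Nat.add_le_add_right
      apply Finset.card_le_card
      intro n hn
      rw [Finset.mem_filter] at hn
      exact Finset.mem_range.mpr (by omega)
    have h2 := hX0 X hXX (hfin.toFinset.filter fun n => N0 + 1 ≤ n) (fun n hn => by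
      rw [Finset.mem_filter, Set.Finite.mem_toFinset, hT, Set.mem_setOf_eq] at hn
      exact ⟨by omega, hn.1.1, hgood n hn.2 hn.1.2⟩)
    rw [Finset.card_range] at h1
    have h3 : (hfin.toFinset.card : ℝ) ≤ ((N0 : ℝ) + 1) +
        ((hfin.toFinset.filter fun n => N0 + 1 ≤ n).card : ℝ) := by exact_mod_cast h1
    nlinarith
  · have h1 : hfin.toFinset.card ≤ (Finset.range (X + 1)).card := by
      apply Finset.card_le_card
      intro n hn
      rw [Set.Finite.mem_toFinset, hT, Set.mem_setOf_eq] at hn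
      exact Finset.mem_range.mpr (by omega)
    rw [Finset.card_range] at h1
    have h2 : (hfin.toFinset.card : ℝ) ≤ (X0 : ℝ) + 1 := by
      exact_mod_cast (by omega : hfin.toFinset.card ≤ X0 + 1)
    nlinarith

end Pool.Agent.Results.MP_f5847d_nt.SparseExceptions
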